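import Pool.Agent.H46.VT.Red
import Pool.Agent.H46.VT.Tools

/-!
# The sets of the construction are c.e.
-/

set_option autoImplicit false

namespace Pool.Agent.H35.VT

open _root_.VT Pool.Agent.H46.VT
open Nat.Partrec (Code)

theorem pf_CS (hRA : TARGET_RA) (hRG : TARGET_RG) : TARGET_CS := by
  intro ph hc hr
  obtain ⟨-, hU, hC, hA, hAC, hCU, -⟩ := hRA ph hr
  have hF : Computable (fun q : Unit × ℕ × ℕ => (fun _ : Unit => ph) q.1 q.2.1 q.2.2) :=
    hc.comp (Computable.fst.comp Computable.snd) (Computable.snd.comp Computable.snd)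
  obtain ⟨g1, g2, g3, -, g5, -⟩ := hRG Unit inferInstance (fun _ => ph) hF
  have f1 : ∀ l : ℕ, Computable (fun q : ℕ × ℕ => (((), l, q.1, q.2) : Unit × ℕ × ℕ × ℕ)) :=
    fun l => (Computable.const ()).pair ((Computable.const l).pair
      (Computable.fst.pair Computable.snd))
  have f2 : ∀ (l : ℕ) (b : Code), Computable (fun q : ℕ × ℕ =>
      (((), (l, b), q.1, q.2) : Unit × (ℕ × Code) × ℕ × ℕ)) :=
    fun l b => (Computable.const ()).pair ((Computable.const (l, b)).pair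
      (Computable.fst.pair Computable.snd))
  have c1 : ∀ l, ComputablePred (fun q : ℕ × ℕ => Uin ph l q.1 q.2) := fun l =>
    cp_comp (p := fun q : Unit × ℕ × ℕ × ℕ => Uin ph q.2.1 q.2.2.1 q.2.2.2) g1 (f1 l)
  have c2 : ∀ l, ComputablePred (fun q : ℕ × ℕ => Cin ph l q.1 q.2) := fun l =>
    cp_comp (p := fun q : Unit × ℕ × ℕ × ℕ => Cin ph q.2.1 q.2.2.1 q.2.2.2) g2 (f1 l)
  have c3 : ∀ l, ComputablePred (fun q : ℕ × ℕ => Ain ph l q.1 q.2) := fun l =>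
    cp_comp (p := fun q : Unit × ℕ × ℕ × ℕ => Ain ph q.2.1 q.2.2.1 q.2.2.2) g3 (f1 l)
  have c5 : ∀ l b, ComputablePred (fun q : ℕ × ℕ => Dst ph l b q.1 q.2) := fun l b =>
    cp_comp (p := fun q : Unit × (ℕ × Code) × ℕ × ℕ => Dst ph q.2.1.1 q.2.1.2 q.2.2.1 q.2.2.2)
      g5 (f2 l b)
  refine ⟨fun l => ce_of_exists (P := fun s x => Uin ph l s x) (c1 l),
    fun l => ce_of_exists (P := fun s x => Cin ph l s x) (c2 l),
    fun l => ce_of_exists (P := fun s x => Ain ph l s x) (c3 l),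
    fun l b => ce_of_exists (P := fun s x => Dst ph l b s x) (c5 l b),
    fun l x ⟨s, hs⟩ => ⟨s, hAC l s x hs⟩, fun l x ⟨s, hs⟩ => ⟨s, hCU l s x hs⟩, ?_⟩
  rintro l b x ⟨s, t, -, k, hk, ⟨-, hp, ⟨ha, -, -⟩, -⟩, rfl, -⟩
  refine ⟨t, ?_⟩
  rw [ha]
  unfold cur
  unfold ptr at hp
  unfold Cin
  by_cases h : k < mX x
  · rw [if_pos h] at hp ⊢
    exact Or.inl ⟨rfl, by omega⟩
  · rw [if_neg h] at hp ⊢
    refine Or.inr ⟨by omega, ?_, Or.inr (Or.inl ⟨?_, by omega⟩)⟩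
    · unfold lm
      rw [Nat.add_sub_cancel, Nat.unpair_pair]
    · unfold li
      rw [Nat.add_sub_cancel, Nat.unpair_pair]

end Pool.Agent.H35.VT
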