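import Pool.Agent.H46.VT.Red
import Pool.Agent.H46.VT.Tools

/-!
# The game is won
-/

set_option autoImplicit false

namespace Pool.Agent.H35.VT

open _root_.VT Pool.Agent.H46.VT
open Nat.Partrec (Code)

theorem pf_GL (hCD : TARGET_CD) (hLF : TARGET_LF) (hTC : TARGET_TC) (hTU : TARGET_TU)
    (hGA : TARGET_GA) (hGB : TARGET_GB) (_hCS : TARGET_CS) (_hRA : TARGET_RA) : TARGET_GL := by
  intro ph hc hr l b S S' hS hS' hSU hSS hB
  obtain ⟨s, rfl⟩ := ce_iff_code.1 hS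
  obtain ⟨s', rfl⟩ := ce_iff_code.1 hS'
  obtain ⟨t, ht⟩ := ce_iff_code.1 ce_univ
  obtain ⟨k, hk, h1, h2, h3, h4, h5⟩ := hCD.2.1 (lm l) l b s s' t
  subst h1
  subst h2
  subst h3
  subst h4
  have hI : Inf ph k := by
    refine (hLF ph hr).2.2.2 k hSU hSS hB ?_
    rw [h5, ← ht]
    exact Set.subset_univ _
  obtain ⟨hT1, hT2⟩ := hTC ph hc hr k
  have hfin := hTU ph hr k
  refine ⟨k, TT ph k \ {x | x ∈ TT ph k ∧ x ∈ CC ph (rl k) ∧ (rl k = 0 → k < mX x) ∧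
    ¬ TrueUpTo ph k x}, ce_diff_finite hT1 hfin, ?_, ?_⟩
  · rintro x hx
    exact ⟨hT2 hx, fun h => hx.2 h.2.1⟩
  · rintro x hxS ⟨hxT, hxF⟩ hkm
    have hxC : x ∈ CC ph (rl k) := by
      rw [← hSU]
      exact Or.inl hxS
    have hTr : TrueUpTo ph k x := by
      by_contra h
      exact hxF ⟨hxT, hxC, hkm, h⟩
    have hblk : blk (rl k) k x := by
      by_cases hl : rl k = 0
      · exact Or.inl ⟨hl, hkm hl⟩
      · obtain ⟨u, hu⟩ := hxC
        rcases hu with hu | hu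
        · exact absurd hu.1 hl
        · exact Or.inr ⟨hl, hu.2.1, by rw [hu.2.1]; exact hk⟩
    constructor
    · intro hA
      obtain ⟨u, hu1, hu2, -⟩ := hxT
      exact hGA ph hr k x hblk hTr hI ⟨u, hu1, hu2⟩ hxS hA
    · intro hb
      exact hGB ph hr k x hblk hTr hI hxC hxS hb

end Pool.Agent.H35.VT
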