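import Pool.Agent.H46.VT.Tools

/-!
# Automorphisms of the lattice of c.e. sets are induced by permutations
-/

set_option autoImplicit false

namespace Pool.Agent.H35.VT

open _root_.VT Pool.Agent.H46.VT

/-- singletons -/
def sg (x : ℕ) : CESet := ⟨{x}, ce_finite (Set.finite_singleton x)⟩

lemma sg_le (x : ℕ) (A : CESet) : sg x ≤ A ↔ x ∈ A.1 := by
  change ({x} : Set ℕ) ⊆ A.1 ↔ _
  exact Set.singleton_subset_iff

lemma sg_inj {x y : ℕ} (h : sg x = sg y) : x = y := by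
  have h1 : ({x} : Set ℕ) = {y} := congrArg Subtype.val h
  exact Set.singleton_injective h1

lemma nonempty_sg (Φ : CESet ≃o CESet) (x : ℕ) : ((Φ (sg x)).1).Nonempty := by
  rw [Set.nonempty_iff_ne_empty]
  intro h
  have h1 : Φ (sg x) ≤ Φ ⟨∅, ce_empty⟩ := by
    change (Φ (sg x)).1 ⊆ _
    rw [h]
    exact Set.empty_subset _
  rw [Φ.le_iff_le] at h1
  rw [sg_le] at h1
  exact h1

lemma sg_image (Φ : CESet ≃o CESet) (x : ℕ) : ∃ y, Φ (sg x) = sg y := by
  obtain ⟨y, hy⟩ := nonempty_sg Φ x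
  refine ⟨y, ?_⟩
  have h1 : sg y ≤ Φ (sg x) := (sg_le _ _).2 hy
  have h2 : Φ.symm (sg y) ≤ sg x := by
    rw [← Φ.le_iff_le, OrderIso.apply_symm_apply]
    exact h1
  obtain ⟨z, hz⟩ := nonempty_sg Φ.symm y
  have h3 : z = x := by
    have h4 : z ∈ (sg x).1 := h2 hz
    exact h4
  have h5 : sg x ≤ Φ.symm (sg y) := by
    rw [sg_le, ← h3]
    exact hz
  have h6 : Φ.symm (sg y) = sg x := le_antisymm h2 h5
  rw [← h6, OrderIso.apply_symm_apply]

theorem pf_PERM : TARGET_PERM := by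
  intro Φ
  choose φ hφ using sg_image Φ
  choose ψ hψ using sg_image Φ.symm
  have h1 : ∀ x, ψ (φ x) = x := by
    intro x
    apply sg_inj
    rw [← hψ, ← hφ, OrderIso.symm_apply_apply]
  have h2 : ∀ y, φ (ψ y) = y := by
    intro y
    apply sg_inj
    rw [← hφ, ← hψ, OrderIso.apply_symm_apply]
  let e : ℕ ≃ ℕ := ⟨φ, ψ, h1, h2⟩
  have key : ∀ A : CESet, (Φ A).1 = e '' A.1 := by
    intro A
    ext y
    rw [Equiv.image_eq_preimage_symm]
    change y ∈ (Φ A).1 ↔ ψ y ∈ A.1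
    rw [← sg_le, ← sg_le, ← hψ]
    constructor
    · intro h
      rw [← Φ.le_iff_le, OrderIso.apply_symm_apply]
      exact h
    · intro h
      rw [← Φ.le_iff_le, OrderIso.apply_symm_apply] at h
      exact h
  refine ⟨e, key, ?_⟩
  intro S
  constructor
  · intro h
    have h3 := key ⟨S, h⟩
    rw [← h3]
    exact (Φ ⟨S, h⟩).2
  · intro h
    have h3 := key (Φ.symm ⟨e '' S, h⟩)
    rw [OrderIso.apply_symm_apply] at h3
    have h4 : S = (Φ.symm ⟨e '' S, h⟩).1 := e.injective.image_injective h3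
    rw [h4]
    exact (Φ.symm ⟨e '' S, h⟩).2

end Pool.Agent.H35.VT
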