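import Pool.Agent.H46.VT.Red
import Pool.Agent.H46.VT.Tools

/-!
# Checks already made, positions of the pointer
-/

set_option autoImplicit false

namespace Pool.Agent.H35.VT

open _root_.VT Pool.Agent.H46.VT

/-- the three kinds of moves -/
lemma step_cases {ph : ℕ → ℕ → ℕ × ℕ} (hr : Run ph) (s x : ℕ) :
    (ph (s + 1) x = ph s x) ∨
    (Guard ph s x ∧ MvC ph s x ∧ (ph s x).2 = mX x + 2 ∧ ¬ presSt (lX x) s x ∧
      ph (s + 1) x = ((ph s x).1 + 1, LX x + 4)) ∨
    (Guard ph s x ∧ MvC ph s x ∧ ¬ ((ph s x).2 = mX x + 2 ∧ ¬ presSt (lX x) s x) ∧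
      ph (s + 1) x = ((ph s x).1, (ph s x).2 - 1)) := by
  have h := hr.2 s x
  unfold nxt at h
  by_cases h1 : Guard ph s x ∧ MvC ph s x
  · rw [if_pos h1] at h
    by_cases h2 : (ph s x).2 = mX x + 2 ∧ ¬ presSt (lX x) s x
    · rw [if_pos h2] at h
      exact Or.inr (Or.inl ⟨h1.1, h1.2, h2.1, h2.2, h⟩)
    · rw [if_neg h2] at h
      exact Or.inr (Or.inr ⟨h1.1, h1.2, h2, h⟩)
  · rw [if_neg h1] at h
    exact Or.inl h

lemma ptr_cases (x k : ℕ) (hk : k < LX x) : ptr x k ≤ mX x ∨ (mX x + 3 ≤ ptr x k ∧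
    ptr x k ≤ LX x + 2) := by
  unfold ptr
  split_ifs with h
  · left; omega
  · right; omega

theorem pf_SP (_hRA : TARGET_RA) : TARGET_SP := by
  intro ph hr s x
  induction s with
  | zero =>
    have h0 := hr.1 x
    have hL : LX x = mX x + eX x := rfl
    rw [h0]
    refine ⟨fun h => ?_, fun h => ?_, fun h => ?_, fun h => ?_⟩ <;> simp only at h <;> omega
  | succ s ih =>
    obtain ⟨ia, ib, ic, id⟩ := ih
    have hL : LX x = mX x + eX x := rfl
    have hm : ∀ {c : Nat.Partrec.Code}, Wst c s x → Wst c (s + 1) x :=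
      fun h => wst_mono (Nat.le_succ s) h
    rcases step_cases hr s x with h | ⟨_, _, _, _, h⟩ | ⟨_, hM, hn, h⟩
    · rw [h]
      exact ⟨fun h1 k h2 h3 h4 h5 => (ia h1 k h2 h3 h4 h5).imp hm hm,
        fun h1 k h2 h3 h4 => (ib h1 k h2 h3 h4).imp hm hm,
        fun h1 k h2 h3 h4 h5 => hm (ic h1 k h2 h3 h4 h5),
        fun h1 k h2 h3 h4 => hm (id h1 k h2 h3 h4)⟩
    · rw [h]
      refine ⟨fun h => ?_, fun h => ?_, fun h => ?_, fun h => ?_⟩ <;> simp only at h <;> omega
    · rw [h]
      simp only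
      refine ⟨fun h1 k h2 h3 h4 h5 => ?_, fun h1 k h2 h3 h4 => ?_, fun h1 k h2 h3 h4 h5 => ?_,
        fun h1 k h2 h3 h4 => ?_⟩
      · by_cases h6 : (ph s x).2 ≤ LX x + 2
        · exact (ia h6 k h2 h3 h4 h5).imp hm hm
        · have h7 : (ph s x).2 = LX x + 3 := by omega
          rcases hM with h8 | h8 | h8 | h8 | ⟨j, hj, h8⟩
          · omega
          · exact (h8.2 k h2 h3 h4 h5).imp hm hm
          · omega
          · omega
          · rcases ptr_cases x j hj with h9 | h9 <;> omega
      · by_cases h6 : (ph s x).2 ≤ mX x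
        · exact (ib h6 k h2 h3 h4).imp hm hm
        · have h7 : (ph s x).2 = mX x + 1 := by omega
          rcases hM with h8 | h8 | h8 | h8 | ⟨j, hj, h8⟩
          · omega
          · omega
          · omega
          · exact (h8.2 k h2 h3 h4).imp hm hm
          · rcases ptr_cases x j hj with h9 | h9 <;> omega
      · by_cases h6 : (ph s x).2 ≤ LX x + 3
        · exact hm (ic h6 k h2 h3 h4 h5)
        · have h7 : (ph s x).2 = LX x + 4 := by omega
          rcases hM with h8 | h8 | h8 | h8 | ⟨j, hj, h8⟩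
          · exact hm (h8.2.2 k h2 h3 h4 h5)
          · omega
          · omega
          · omega
          · rcases ptr_cases x j hj with h9 | h9 <;> omega
      · by_cases h6 : (ph s x).2 ≤ mX x + 1
        · exact hm (id h6 k h2 h3 h4)
        · have h7 : (ph s x).2 = mX x + 2 := by omega
          rcases hM with h8 | h8 | h8 | h8 | ⟨j, hj, h8⟩
          · omega
          · omega
          · rcases h8.2 with h9 | h9
            · exact absurd ⟨h7, h9⟩ hn
            · exact hm (h9 k h2 h3 h4)
          · omega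
          · rcases ptr_cases x j hj with h9 | h9 <;> omega

theorem pf_PT (hRA : TARGET_RA) : TARGET_PT := by
  intro ph hr x t t' c htt
  have hmono := (hRA ph hr).2.2.2.2.2.2.2.1
  induction t', htt using Nat.le_induction with
  | base =>
    intro hc h
    rcases h with h | h
    · omega
    · exact ⟨t, le_rfl, le_rfl, Prod.ext rfl (by simp only; omega)⟩
  | succ t' htt ih =>
    intro hc h
    have ih' : (((ph t x).1 < (ph t' x).1 ∧ mX x + 2 ≤ c) ∨
        ((ph t x).1 = (ph t' x).1 ∧ (ph t' x).2 ≤ c)) →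
        ∃ t'', t ≤ t'' ∧ t'' ≤ t' + 1 ∧ ph t'' x = ((ph t x).1, c) := by
      intro h1
      obtain ⟨u, hu1, hu2, hu3⟩ := ih hc h1
      exact ⟨u, hu1, by omega, hu3⟩
    have hmn := (hmono t t' x htt).1
    rcases step_cases hr t' x with h1 | ⟨_, _, h2, _, h1⟩ | ⟨_, _, _, h1⟩
    · rw [h1] at h
      exact ih' h
    · rw [h1] at h
      simp only at h
      refine ih' ?_
      clear ih ih' hmono
      omega
    · rw [h1] at h
      simp only at h
      by_cases h3 : (ph t x).1 < (ph t' x).1
      · refine ih' ?_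
        clear ih ih' hmono
        omega
      · by_cases h4 : (ph t' x).2 ≤ c
        · refine ih' ?_
          clear ih ih' hmono
          omega
        · clear ih ih' hmono
          refine ⟨t' + 1, by omega, le_rfl, ?_⟩
          rw [h1]
          exact Prod.ext (by simp only; omega) (by simp only; omega)

end Pool.Agent.H35.VT
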